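import Pool.Agent.Helper13.FR.Stmts

/-!
# MP_7a8f48_an, module NCT: the theorem
-/

set_option autoImplicit false

open Finset Filter
open scoped ComplexConjugate

namespace Pool.Agent.Helper13.FR

open Pool.Agent.Helper16.MD

theorem nct_mu (x : ℕ) : ‖((ArithmeticFunction.moebius x : ℤ) : ℂ)‖ ≤ 1 := by
  rw [Complex.norm_intCast]
  exact_mod_cast ArithmeticFunction.abs_moebius_le_one

theorem nct_pow {A : Type} [CStarAlgebra A] (α : A →⋆ₐ[ℂ] A) (x : ℕ) (u : A) :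
    ‖(α ^ x) u‖ ≤ ‖u‖ := NonUnitalStarAlgHom.norm_apply_le (α ^ x) u

theorem nct_proj {A : Type} [CStarAlgebra A] (q : A) (h1 : star q = q) (h2 : q * q = q) :
    ‖q‖ ≤ 1 := by
  have h3 : ‖q‖ * ‖q‖ = ‖q‖ := by
    have := CStarRing.norm_star_mul_self (x := q)
    rw [h1, h2] at this
    exact this.symm
  by_contra hlt
  rw [not_le] at hlt
  nlinarith

theorem nct_chain {A : Type} [CStarAlgebra A] (p : ℕ → A)
    (h : ∀ k, p (k + 1) * p k = p (k + 1)) (h0 : ∀ k, p k * p k = p k) (k : ℕ) :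
    ∀ j, p (k + j) * p k = p (k + j) := by
  intro j
  induction j with
  | zero => exact h0 k
  | succ j ih =>
    calc p (k + (j + 1)) * p k = (p (k + j + 1) * p (k + j)) * p k := by
          rw [h (k + j)]; rfl
      _ = p (k + j + 1) * (p (k + j) * p k) := by rw [mul_assoc]
      _ = p (k + (j + 1)) := by rw [ih, h (k + j)]; rfl

theorem nct_dvd (m : ℕ → ℕ) (h : ∀ k, m k ∣ m (k + 1)) (k : ℕ) : ∀ j, m k ∣ m (k + j) := by
  intro j
  induction j with
  | zero => exact dvd_rfl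
  | succ j ih => exact ih.trans (h (k + j))

/-- the estimate for one element of the tower -/
theorem nct_one {A : Type} [CStarAlgebra A] (α : A →⋆ₐ[ℂ] A) (q u : A) (r D : ℕ) (N : ℕ)
    (z : ℂ) (ε : ℝ) (hz : ‖z‖ = 1) (hε : 0 ≤ ε)
    (hq : ‖q‖ ≤ 1) (T : ℕ → A) (M : ℝ)
    (hT : ∀ x, r ≤ x → ‖z ^ x • ((α ^ r) q * (α ^ x) u) - T x‖ ≤ ε) (hTb : ∀ x, ‖T x‖ ≤ D * ‖u‖)
    (hM : ‖∑ x ∈ Icc 1 N, ((ArithmeticFunction.moebius x : ℤ) : ℂ) • T x‖ ≤ M) :
    ‖(α ^ r) q * ∑ x ∈ Icc 1 N,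
        (((ArithmeticFunction.moebius x : ℤ) : ℂ) * z ^ x) • (α ^ x) u‖ ≤
      M + (N * ε + r * ((D + 1) * ‖u‖)) := by
  have hqr : ‖(α ^ r) q‖ ≤ 1 := (nct_pow α r q).trans hq
  have e1 : (α ^ r) q * ∑ x ∈ Icc 1 N,
        (((ArithmeticFunction.moebius x : ℤ) : ℂ) * z ^ x) • (α ^ x) u =
      ∑ x ∈ Icc 1 N, ((ArithmeticFunction.moebius x : ℤ) : ℂ) • T x +
      ∑ x ∈ Icc 1 N, ((ArithmeticFunction.moebius x : ℤ) : ℂ) •
        (z ^ x • ((α ^ r) q * (α ^ x) u) - T x) := by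
    rw [Finset.mul_sum, ← Finset.sum_add_distrib]
    refine Finset.sum_congr rfl fun x _ => ?_
    rw [mul_smul_comm, mul_smul, ← smul_add, add_sub_cancel]
  rw [e1]
  refine norm_add_le_of_le hM ?_
  have hcard : (((Icc 1 N).filter (fun x => x < r)).card : ℝ) ≤ r := by
    have : ((Icc 1 N).filter (fun x => x < r)).card ≤ (Finset.range r).card := by
      apply Finset.card_le_card
      intro x hx
      rw [Finset.mem_filter] at hx
      exact Finset.mem_range.2 hx.2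
    rw [Finset.card_range] at this
    exact_mod_cast this
  calc ‖∑ x ∈ Icc 1 N, ((ArithmeticFunction.moebius x : ℤ) : ℂ) •
        (z ^ x • ((α ^ r) q * (α ^ x) u) - T x)‖
      ≤ ∑ x ∈ Icc 1 N, (ε + if x < r then ((D + 1) * ‖u‖) else 0) := by
        refine norm_sum_le_of_le _ fun x _ => ?_
        rw [norm_smul]
        have a1 : ‖z ^ x • ((α ^ r) q * (α ^ x) u) - T x‖ ≤
            ε + if x < r then ((D + 1) * ‖u‖) else 0 := by
          by_cases hx : x < r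
          · rw [if_pos hx]
            have a2 : ‖z ^ x • ((α ^ r) q * (α ^ x) u)‖ ≤ 1 * ‖u‖ := by
              rw [norm_smul, norm_pow, hz, one_pow, one_mul]
              exact (norm_mul_le _ _).trans
                (mul_le_mul hqr (nct_pow α x u) (norm_nonneg _) zero_le_one)
            have a3 := norm_sub_le_of_le a2 (hTb x)
            linarith
          · rw [if_neg hx, add_zero]
            exact hT x (not_lt.1 hx)
        calc ‖((ArithmeticFunction.moebius x : ℤ) : ℂ)‖ *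
              ‖z ^ x • ((α ^ r) q * (α ^ x) u) - T x‖
            ≤ 1 * (ε + if x < r then ((D + 1) * ‖u‖) else 0) :=
              mul_le_mul (nct_mu x) a1 (norm_nonneg _) zero_le_one
          _ = _ := one_mul _
    _ = N * ε + (((Icc 1 N).filter (fun x => x < r)).card : ℝ) * ((D + 1) * ‖u‖) := by
        rw [Finset.sum_add_distrib, Finset.sum_const, ← Finset.sum_filter, Finset.sum_const,
          nsmul_eq_mul, nsmul_eq_mul, Nat.card_Icc]
        simp
    _ ≤ N * ε + r * ((D + 1) * ‖u‖) := by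
        have := mul_le_mul_of_nonneg_right hcard (by positivity : 0 ≤ ((D : ℝ) + 1) * ‖u‖)
        linarith

theorem st_NCT (h1 : ST_VEC) (h2 : ST_CEN) (h3 : ST_TOW) : ST_NCT := by
  intro A _ α m p u hm hmono hdvd hcom hstar hidem hpp hper hsum hcov e he
  obtain ⟨d, hfr⟩ := hcov (e / 8) (by positivity)
  obtain ⟨n₀, hn₀⟩ := h1 (d * d) (e / (4 * (‖u‖ + 1))) (by positivity)
  obtain ⟨k, hk1, S, hS, hSc, hSS⟩ := (Filter.frequently_atTop.1 hfr) n₀
  have hkm : ∀ k, k ≤ m k := fun k => hmono.le_apply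
  obtain ⟨Λ₀, hΛ₀⟩ := hn₀ (m k) (hk1.trans (hkm k))
  obtain ⟨l, hl1, S', hS', hSc', hSS'⟩ :=
    (Filter.frequently_atTop.1 hfr) (max k ((Λ₀ + 1) * m k))
  have hkl : k ≤ l := (le_max_left _ _).trans hl1
  obtain ⟨j, rfl⟩ := Nat.exists_eq_add_of_le hkl
  obtain ⟨Λ, hΛ⟩ := nct_dvd m hdvd k j
  have hmk : 0 < m k := hm k
  have hΛ1 : Λ₀ + 1 ≤ Λ := by
    have a1 : (Λ₀ + 1) * m k ≤ m k * Λ := by
      rw [← hΛ]
      exact ((le_max_right _ _).trans hl1).trans (hkm _)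
    rw [mul_comm] at a1
    exact Nat.le_of_mul_le_mul_left a1 hmk
  obtain ⟨N₀, hN₀⟩ := hΛ₀ Λ (by omega)
  have hq : ‖p (k + j)‖ ≤ 1 := nct_proj _ (hstar _) (hidem _)
  have hqp : p (k + j) * p k = p (k + j) := nct_chain p hpp hidem k j
  have hperq : (α ^ (m k * Λ)) (p (k + j)) = p (k + j) := by
    rw [← hΛ]; exact hper _
  rw [hΛ] at hS' hSS'
  obtain ⟨N₁, hN₁⟩ : ∃ N₁ : ℕ, ∀ N : ℕ, N₁ ≤ N →
      (m k * Λ : ℕ) * (((d * d : ℕ) + 1 : ℝ) * ‖u‖) ≤ e / 4 * N := by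
    have : Tendsto (fun N : ℕ => e / 4 * (N : ℝ)) atTop atTop :=
      tendsto_natCast_atTop_atTop.const_mul_atTop (by positivity)
    exact Filter.eventually_atTop.1
      (this.eventually_ge_atTop ((m k * Λ : ℕ) * (((d * d : ℕ) + 1 : ℝ) * ‖u‖)))
  refine ⟨max N₀ N₁, fun N z hN hz => ?_⟩
  obtain ⟨φ, G, ω, hb, hφ, hG, hω, hT⟩ := h3 A α (m k) Λ d (p k) (p (k + j)) u z (e / 8) S S' hmk
    (by omega) hqp (hper k) hperq hq hz hS hS' hSc hSc' hSS hSS'
  have b1 : ∀ r, ‖∑ x ∈ Icc 1 N, ((ArithmeticFunction.moebius x : ℤ) : ℂ) •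
      ∑ i ∈ range (d * d), (φ i (x + (m k * Λ - r)) * G i ((x + (m k * Λ - r)) / m k)) •
          ω i r ((x + (m k * Λ - r)) / (m k * Λ))‖ ≤ e / (4 * (‖u‖ + 1)) * ‖u‖ * N := by
    intro r
    exact hN₀ N (m k * Λ - r) (fun i x => φ i (x + (m k * Λ - r))) G
      ((le_max_left _ _).trans hN)
      (fun i x => ⟨(hb i _).1, (hb i x).2⟩)
      (fun i x => by
        have : x + m k + (m k * Λ - r) = x + (m k * Λ - r) + m k := by ring
        simp only [this, hφ]) hG A (fun i t => ω i r t) ‖u‖ (fun i t => hω i r t)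
  have b2 := hN₁ N ((le_max_right _ _).trans hN)
  have hv1 : e / (4 * (‖u‖ + 1)) * ‖u‖ ≤ e / 4 := by
    have hpos : 0 < ‖u‖ + 1 := by positivity
    rw [div_mul_eq_mul_div, div_le_div_iff₀ (by positivity) (by norm_num)]
    nlinarith [norm_nonneg u]
  refine h2 A (m k * Λ) (fun r => (α ^ r) (p (k + j))) _ _ (fun r _ w => hcom _ r w)
    (fun r _ => by rw [← map_star, hstar]) (fun r _ => by rw [← map_mul, hidem]) ?_
    (by positivity) ?_
  · rw [← hΛ]; exact hsum _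
  · intro r hr
    have hr' := Finset.mem_range.1 hr
    have c1 := nct_one α (p (k + j)) u r (d * d) N z (2 * (e / 8)) hz (by positivity) hq
      (fun x => ∑ i ∈ range (d * d), (φ i (x + (m k * Λ - r)) *
        G i ((x + (m k * Λ - r)) / m k)) • ω i r ((x + (m k * Λ - r)) / (m k * Λ)))
      (e / (4 * (‖u‖ + 1)) * ‖u‖ * N) (fun x hx => hT r x hr' hx) ?_ (b1 r)
    · refine c1.trans ?_
      have c2 : (r : ℝ) * (((d * d : ℕ) + 1 : ℝ) * ‖u‖) ≤
          (m k * Λ : ℕ) * (((d * d : ℕ) + 1 : ℝ) * ‖u‖) := by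
        apply mul_le_mul_of_nonneg_right _ (by positivity)
        exact_mod_cast hr'.le
      have c3 : e / (4 * (‖u‖ + 1)) * ‖u‖ * N ≤ e / 4 * N :=
        mul_le_mul_of_nonneg_right hv1 (Nat.cast_nonneg N)
      have c4 : 0 ≤ e * (N : ℝ) := by positivity
      linarith
    · intro x
      calc ‖∑ i ∈ range (d * d), (φ i (x + (m k * Λ - r)) *
            G i ((x + (m k * Λ - r)) / m k)) • ω i r ((x + (m k * Λ - r)) / (m k * Λ))‖
          ≤ ∑ i ∈ range (d * d), ‖u‖ := by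
            refine norm_sum_le_of_le _ fun i _ => ?_
            rw [norm_smul, norm_mul]
            have d1 := (hb i (x + (m k * Λ - r))).1
            have d2 := (hb i ((x + (m k * Λ - r)) / m k)).2
            calc ‖φ i (x + (m k * Λ - r))‖ * ‖G i ((x + (m k * Λ - r)) / m k)‖ *
                  ‖ω i r ((x + (m k * Λ - r)) / (m k * Λ))‖ ≤ 1 * ‖u‖ :=
                  mul_le_mul (mul_le_one₀ d1 (norm_nonneg _) d2) (hω _ _ _) (norm_nonneg _)
                    zero_le_one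
              _ = ‖u‖ := one_mul _
        _ = ((d * d : ℕ) : ℝ) * ‖u‖ := by rw [Finset.sum_const, Finset.card_range, nsmul_eq_mul]

end Pool.Agent.Helper13.FR
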