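import Pool.Agent.Helper13.FR.Stmts

/-!
# MP_7a8f48_an, module TSC: the two-scale theorem
-/

set_option autoImplicit false

open Finset Filter
open scoped ComplexConjugate

namespace Pool.Agent.Helper13.FR

open Pool.Agent.Helper16.MD

theorem tsc_half (n Λ a : ℕ) (φ U ω : ℕ → ℂ) (N : ℕ) :
    MS (FF n Λ a φ U ω) N = 2 * MS (FF n Λ a φ (fun s => U s / 2) ω) N := by
  unfold MS FF
  rw [Finset.mul_sum]
  refine Finset.sum_congr rfl fun x _ => ?_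
  ring

theorem tsc_split (n Λ a : ℕ) (φ G ω U E : ℕ → ℂ) (S : Finset ℕ) (b : ℕ → ℂ) (N : ℕ)
    (h : ∀ x, G x = U x + E x + ∑ ξ ∈ S, b ξ * ee ((ξ : ℝ) * x / Λ)) :
    MS (FF n Λ a φ G ω) N = 2 * MS (FF n Λ a φ (fun s => U s / 2) ω) N +
      MS (FF n Λ a φ E ω) N +
      ∑ ξ ∈ S, b ξ * MS (FF n Λ a φ (fun s => ee (((ξ : ℝ) / Λ) * s)) ω) N := by
  rw [← tsc_half]
  unfold MS FF
  simp only [Finset.mul_sum]
  rw [Finset.sum_comm, ← Finset.sum_add_distrib, ← Finset.sum_add_distrib]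
  refine Finset.sum_congr rfl fun x _ => ?_
  rw [h, ← sub_eq_zero]
  have e : ∀ ξ ∈ S, b ξ * (((ArithmeticFunction.moebius x : ℤ) : ℂ) *
      (φ x * ee ((ξ : ℝ) / Λ * ((x + a) / n : ℕ)) * ω ((x + a) / (n * Λ)))) =
      (((ArithmeticFunction.moebius x : ℤ) : ℂ) * φ x * ω ((x + a) / (n * Λ))) *
        (b ξ * ee ((ξ : ℝ) * ((x + a) / n : ℕ) / Λ)) := by
    intro ξ _
    have e1 : (ξ : ℝ) / Λ * ((x + a) / n : ℕ) = (ξ : ℝ) * ((x + a) / n : ℕ) / Λ := by ring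
    rw [e1]
    ring
  rw [Finset.sum_congr rfl e, ← Finset.mul_sum]
  ring

theorem tsc_nu (Λ : ℕ) (U : ℕ → ℂ) (ξ : ℕ) :
    nu Λ (fun s => U s / 2) ξ = nu Λ U ξ / 4 := by
  unfold nu
  have e : (∑ s ∈ range Λ, U s / 2 * ee (-((ξ : ℝ) * s) / Λ)) / (Λ : ℂ) =
      ((∑ s ∈ range Λ, U s * ee (-((ξ : ℝ) * s) / Λ)) / (Λ : ℂ)) / 2 := by
    have e0 : (∑ s ∈ range Λ, U s / 2 * ee (-((ξ : ℝ) * s) / Λ)) =
        (∑ s ∈ range Λ, U s * ee (-((ξ : ℝ) * s) / Λ)) / 2 := by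
      rw [Finset.sum_div]
      refine Finset.sum_congr rfl fun x _ => ?_
      ring
    rw [e0]
    ring
  rw [e, norm_div]
  have h2 : ‖(2 : ℂ)‖ = 2 := by simp
  rw [h2]
  ring

theorem st_TSC (h1 : ST_PRI) (h2 : ST_BOH) (h3 : ST_STR) (h4 : ST_ERR) : ST_TSC := by
  intro η hη
  have hη1 : 0 < min η 1 / 8 := by positivity
  have hη2 : min η 1 / 8 ≤ 1 := by
    have := min_le_right η 1
    linarith
  obtain ⟨c, hc, n₀, hP⟩ := h1 (min η 1 / 8) hη1 hη2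
  have hε : 0 < (η / 8) ^ 2 := by positivity
  obtain ⟨K, hK⟩ := h2 c ((η / 8) ^ 2) hc hε
  have hδ : 0 < η / (8 * ((K : ℝ) + 1)) := by positivity
  refine ⟨max n₀ 1, fun n hn => ?_⟩
  have hn1 : 1 ≤ n := (le_max_right _ _).trans hn
  obtain ⟨Λ₁, hΛ1⟩ := hP n ((le_max_left _ _).trans hn)
  obtain ⟨Λ₂, hΛ2⟩ := h3 n (η / (8 * ((K : ℝ) + 1))) hn1 hδ
  refine ⟨max Λ₁ (max Λ₂ 1), ?_⟩
  intro Λ a φ G ω hΛ hb hφ hG
  have hL1 : Λ₁ ≤ Λ := (le_max_left _ _).trans hΛ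
  have hL2 : Λ₂ ≤ Λ := ((le_max_left _ _).trans (le_max_right _ _)).trans hΛ
  have hL3 : 1 ≤ Λ := ((le_max_right _ _).trans (le_max_right _ _)).trans hΛ
  obtain ⟨U, E, S, b, hS, hSK, hbb, hGe, hU, hE, hU2, hE2, hnu⟩ :=
    hK Λ G hL3 (fun x => (hb x).2.1) hG
  -- the uniform part
  have hev1 : ∀ᶠ N : ℕ in atTop,
      ‖MS (FF n Λ a φ (fun s => U s / 2) ω) N‖ < min η 1 / 8 * N := by
    by_contra hcon
    have hfr : ∃ᶠ N : ℕ in atTop,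
        min η 1 / 8 * N ≤ ‖MS (FF n Λ a φ (fun s => U s / 2) ω) N‖ := by
      intro hh
      apply hcon
      filter_upwards [hh] with N hN
      exact not_le.1 hN
    have hbd : ∀ x, ‖φ x‖ ≤ 1 ∧ ‖(fun s => U s / 2) x‖ ≤ 1 ∧ ‖ω x‖ ≤ 1 := by
      intro x
      refine ⟨(hb x).1, ?_, (hb x).2.2⟩
      have h2' : ‖(2 : ℂ)‖ = 2 := by simp
      simp only [norm_div, h2']
      have := hU2 x
      linarith
    obtain ⟨ξ, hξ, hcx⟩ := hΛ1 Λ a φ (fun s => U s / 2) ω hL1 hbd hφ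
      (fun x => by simp only [hU x]) hfr
    rw [tsc_nu] at hcx
    have := hnu ξ hξ
    have h0 : 0 ≤ nu Λ U ξ := by unfold nu; positivity
    linarith
  -- the structured part
  have hev2 : ∀ᶠ N : ℕ in atTop, ∀ ξ ∈ S,
      ‖MS (FF n Λ a φ (fun s => ee (((ξ : ℝ) / Λ) * s)) ω) N‖ ≤
        η / (8 * ((K : ℝ) + 1)) * N := by
    rw [Filter.eventually_all_finset]
    intro ξ _
    exact hΛ2 Λ a φ ω ((ξ : ℝ) / Λ) hL2 (fun x => ⟨(hb x).1, (hb x).2.2⟩) hφ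
  filter_upwards [hev1, hev2, eventually_ge_atTop (n * Λ)] with N e1 e2 e3
  rw [tsc_split n Λ a φ G ω U E S b N hGe]
  have f1 : ‖2 * MS (FF n Λ a φ (fun s => U s / 2) ω) N‖ ≤ η / 4 * N := by
    rw [norm_mul]
    have h2' : ‖(2 : ℂ)‖ = 2 := by simp
    rw [h2']
    have h5 : min η 1 / 8 * (N : ℝ) ≤ η / 8 * N := by
      apply mul_le_mul_of_nonneg_right _ (Nat.cast_nonneg N)
      have := min_le_left η 1
      linarith
    linarith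
  have f2 : ‖MS (FF n Λ a φ E ω) N‖ ≤ ((N : ℝ) + 2 * n * Λ) * (η / 8) := by
    have h5 := h4 n Λ a N φ E ω ((η / 8) ^ 2) hn1 hL3 hε.le
      (fun x => ⟨(hb x).1, (hb x).2.2⟩) hE hE2
    rwa [Real.sqrt_sq (by positivity)] at h5
  have f3 : ‖∑ ξ ∈ S, b ξ * MS (FF n Λ a φ (fun s => ee (((ξ : ℝ) / Λ) * s)) ω) N‖ ≤
      η / 8 * N := by
    calc ‖∑ ξ ∈ S, b ξ * MS (FF n Λ a φ (fun s => ee (((ξ : ℝ) / Λ) * s)) ω) N‖
        ≤ ∑ ξ ∈ S, η / (8 * ((K : ℝ) + 1)) * N := by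
          refine norm_sum_le_of_le _ fun ξ hξ => ?_
          rw [norm_mul]
          calc ‖b ξ‖ * ‖MS (FF n Λ a φ (fun s => ee (((ξ : ℝ) / Λ) * s)) ω) N‖
              ≤ 1 * ‖MS (FF n Λ a φ (fun s => ee (((ξ : ℝ) / Λ) * s)) ω) N‖ :=
                mul_le_mul_of_nonneg_right (hbb ξ) (norm_nonneg _)
            _ ≤ _ := by rw [one_mul]; exact e2 ξ hξ
      _ = (S.card : ℝ) * (η / (8 * ((K : ℝ) + 1)) * N) := by
          rw [Finset.sum_const, nsmul_eq_mul]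
      _ ≤ ((K : ℝ) + 1) * (η / (8 * ((K : ℝ) + 1)) * N) := by
          apply mul_le_mul_of_nonneg_right _ (by positivity)
          have : (S.card : ℝ) ≤ K := by exact_mod_cast hSK
          linarith
      _ = η / 8 * N := by
          have : (K : ℝ) + 1 ≠ 0 := by positivity
          field_simp
  have e3' : (n : ℝ) * Λ ≤ N := by exact_mod_cast e3
  calc ‖2 * MS (FF n Λ a φ (fun s => U s / 2) ω) N + MS (FF n Λ a φ E ω) N +
      ∑ ξ ∈ S, b ξ * MS (FF n Λ a φ (fun s => ee (((ξ : ℝ) / Λ) * s)) ω) N‖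
      ≤ η / 4 * N + ((N : ℝ) + 2 * n * Λ) * (η / 8) + η / 8 * N :=
        norm_add_le_of_le (norm_add_le_of_le f1 f2) f3
    _ ≤ η * N := by
        have : (n : ℝ) * Λ * η ≤ N * η := mul_le_mul_of_nonneg_right e3' hη.le
        nlinarith

end Pool.Agent.Helper13.FR
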